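import Pool.Agent.H61.MT2
import Pool.Agent.H61.KS6

set_option autoImplicit false
set_option linter.all false

/-!
# The members which avoid the unique half-frequent element are sparse

Let `F` be a finite union-closed family in which `x` is the only element lying in at least half of the
members. The question is whether all nonempty members contain `x`. We bound the exceptional members,
that is, the nonempty members which do not contain `x`, inside every finite set `N` with `x ∉ N`.

* They have at least three elements.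
* For every `k ≥ 3` at most `C(|N|, k-2) / 2 + O(|N| ^ (k-3))` of them are `k`-subsets of `N`; at most
  `|N| / 2` of them are triples in `N`.
* If the exceptional members `A ⊆ N` have weights `l(A) ≥ 0` whose sum over the members through any
  two points is at most `1`, then `∑ l(A) |A| (|A| - 1) / (2 ^ (|A| - 1) - 1) < |N|`. In particular they do
  not contain all blocks of a Steiner system `S(2,k,n)` with `n ≥ 2 ^ (k-1)`.
* The second bound is best possible as far as `N ∪ {x}` is concerned: for all `N` and `x ∉ N` there is a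
  union-closed family in which `x` is the only element of `N ∪ {x}` lying in at least half of the
  members, with at least `C(|N|, k-2) / 2 - O(|N| ^ (k-3))` members among the `k`-subsets of `N`, and with
  `⌊|N| / 2⌋` triples in `N` if `|N| ≥ 4`.

Proof. The bounds are those for families which do not force an element of `N` in at least half of the
members (`MP_9bc572_co.SharpKSetThreshold`, `MP_9bc572_co.LinearFamilies`). For the last part take a
union-closed family with these `k`-subsets of `N` in which no element of `N` is in half of the members,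
rename the elements outside `N`, and add all sets `{x} ∪ C ∪ T`, `C ⊆ N`, `T` the part outside `N` of a
member (or empty).
-/

namespace Pool.Agent.Results.MP_ff7426_co.SparseExceptions

open Finset Pool.Agent.H61.FC Pool.Agent.H61.PS

/-- The finite family `F` of finite sets is union-closed. -/
def UnionClosed (F : Finset (Finset ℕ)) : Prop := ∀ A ∈ F, ∀ B ∈ F, A ∪ B ∈ F

/-- The number of members of `F` containing `x`. -/
def freq (F : Finset (Finset ℕ)) (x : ℕ) : ℕ := (F.filter (fun A => x ∈ A)).card

/-- The number of members of `F` that are `k`-element subsets of `N`. -/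
def kSets (F : Finset (Finset ℕ)) (N : Finset ℕ) (k : ℕ) : ℕ :=
  (F.filter (fun A => A ⊆ N ∧ A.card = k)).card

/-- `x` is the only element which lies in at least half of the members of the nonempty union-closed
family `F`. -/
def UniqueHalf (F : Finset (Finset ℕ)) (x : ℕ) : Prop :=
  F.Nonempty ∧ UnionClosed F ∧ F.card ≤ 2 * freq F x ∧ ∀ y, y ≠ x → 2 * freq F y < F.card

/-- The members of `K` are subsets of `N` of size at least `2` with weights `l ≥ 0`, and the sum of the
weights of the members through any two points of `N` is at most `1`. -/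
def Admissible (N : Finset ℕ) (K : Finset (Finset ℕ)) (l : Finset ℕ → ℝ) : Prop :=
  (∀ A ∈ K, A ⊆ N ∧ 2 ≤ A.card ∧ 0 ≤ l A) ∧
    ∀ x ∈ N, ∀ y ∈ N, x ≠ y → ∑ A ∈ K.filter (fun A => x ∈ A ∧ y ∈ A), l A ≤ 1

/-- The weighted sum of the numbers `|A| (|A| - 1) / (2 ^ (|A| - 1) - 1)`. -/
noncomputable def total (K : Finset (Finset ℕ)) (l : Finset ℕ → ℝ) : ℝ :=
  ∑ A ∈ K, l A * ((A.card : ℝ) * (A.card - 1) / (2 ^ (A.card - 1) - 1))

theorem upperk (k : ℕ) (hk : 3 ≤ k) : ∃ C : ℕ, (k = 3 → C = 0) ∧ ∀ (F : Finset (Finset ℕ))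
    (N : Finset ℕ), UnionClosed F → (∀ y ∈ N, 2 * freq F y < F.card) →
      2 * kSets F N k ≤ N.card.choose (k - 2) + C * N.card ^ (k - 3) := by
  rcases Nat.eq_or_lt_of_le hk with rfl | hk4
  · refine ⟨0, fun _ => rfl, fun F N hF hr => ?_⟩
    have h1 := upper3 (G := F.filter (fun A => A.card = 3)) (fun B hB => (mem_filter.1 hB).2)
      hF (filter_subset _ _) N.card N rfl (fun y hy => not_le.2 (hr y hy))
    unfold ins at h1
    rw [filter_filter] at h1
    have e : F.filter (fun A => A.card = 3 ∧ A ⊆ N) = F.filter (fun A => A ⊆ N ∧ A.card = 3) := by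
      congr 1; ext A; exact and_comm
    rw [e] at h1
    simp only [Nat.choose_one_right, show 3 - 2 = 1 from rfl, zero_mul, add_zero]
    exact h1
  · obtain ⟨C, hC⟩ := upper_all (α := ℕ) hk
    refine ⟨C, fun h => by omega, fun F N hF hr => ?_⟩
    by_contra hcon
    push Not at hcon
    obtain ⟨y, hy, hab⟩ := hC N F hF (by unfold kSets at hcon; exact hcon)
    have := hr y hy
    unfold freq at this
    omega

theorem weights {F K : Finset (Finset ℕ)} {N : Finset ℕ} {l : Finset ℕ → ℝ} (hF : UnionClosed F)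
    (hr : ∀ y ∈ N, 2 * freq F y < F.card) (hN : N.Nonempty) (hKF : K ⊆ F) (hadm : Admissible N K l) :
    total K l < N.card := by
  by_contra hcon
  push Not at hcon
  obtain ⟨y, hy, hab⟩ := Pool.Agent.H61.LF.criterion hF hKF (fun A hA => (hadm.1 A hA).1)
    (fun A hA => (hadm.1 A hA).2.1) hN (fun A hA => (hadm.1 A hA).2.2) hadm.2 hcon
  have := hr y hy
  unfold freq at this
  omega

theorem of_single {F : Finset (Finset ℕ)} (hF : UnionClosed F) {x : ℕ} (hx : {x} ∈ F) :
    F.card ≤ 2 * freq F x := by
  by_contra hcon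
  push Not at hcon
  have hfree : Free F x := free_of_single hF hx (by unfold freq at hcon; omega)
  have h4 := hfree.card
  have h6 : (F.filter (fun A => x ∈ A)).card + (F.filter (fun A => ¬ x ∈ A)).card = F.card :=
    card_filter_add_card_filter_not (fun A => x ∈ A)
  unfold freq at hcon
  omega

theorem local_family {N : Finset ℕ} {x k : ℕ} (hx : x ∉ N) {G : Finset (Finset ℕ)}
    (h1 : ∀ B ∈ G, B ⊆ N ∧ B.card = k) (h2 : NW N G) :
    ∃ F : Finset (Finset ℕ), UnionClosed F ∧ F.card ≤ 2 * freq F x ∧
      (∀ y ∈ N, 2 * freq F y < F.card) ∧ G.card ≤ kSets F N k := by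
  obtain ⟨F₀, f1, f2, f3⟩ := exists_of_NW (fun B hB => (h1 B hB).1) h2
  have e : insert x N \ {x} = N := by
    ext z
    simp only [mem_sdiff, mem_insert, mem_singleton]
    constructor
    · rintro ⟨h | h, h'⟩
      · exact absurd h h'
      · exact h
    · intro h; exact ⟨Or.inr h, fun e => hx (e ▸ h)⟩
  obtain ⟨F, g1, g2, g3, g4⟩ := Pool.Agent.H61.MT.build (N := insert x N) (X := {x})
    (singleton_subset_iff.2 (mem_insert_self _ _)) f1 (by
      intro y hy hab
      rw [e] at hy
      have := f3 y hy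
      unfold Pool.Agent.H61.MT.Ab at hab
      omega)
  rw [e] at g3 g4
  refine ⟨F, g1, of_single g1 (g2 {x} (singleton_subset_iff.2 (mem_insert_self _ _)) (by simp)),
    fun y hy => ?_, ?_⟩
  · have := g4 y hy
    unfold Pool.Agent.H61.MT.Ab at this
    unfold freq
    omega
  · refine card_le_card fun B hB => ?_
    exact mem_filter.2 ⟨g3 B (f2 hB) (h1 B hB).1, h1 B hB⟩

theorem result :
    -- (1) the exceptional members have at least three elements
    (∀ (F : Finset (Finset ℕ)) (x : ℕ), UniqueHalf F x → ∀ A ∈ F, x ∉ A → A.Nonempty →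
      3 ≤ A.card) ∧
    -- (2) the exceptional members with `k` elements
    (∃ C : ℕ → ℕ, C 3 = 0 ∧ ∀ (F : Finset (Finset ℕ)) (x : ℕ), UniqueHalf F x →
      ∀ k : ℕ, 3 ≤ k → ∀ N : Finset ℕ, x ∉ N →
        2 * kSets F N k ≤ N.card.choose (k - 2) + C k * N.card ^ (k - 3)) ∧
    -- (3) weights
    (∀ (F : Finset (Finset ℕ)) (x : ℕ), UniqueHalf F x → ∀ (N : Finset ℕ) (K : Finset (Finset ℕ))
      (l : Finset ℕ → ℝ), x ∉ N → N.Nonempty → K ⊆ F → Admissible N K l → total K l < N.card) ∧
    -- (4) Steiner systems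
    (∀ (F : Finset (Finset ℕ)) (x : ℕ), UniqueHalf F x → ∀ (N : Finset ℕ) (K : Finset (Finset ℕ))
      (k : ℕ), x ∉ N → 2 ≤ k → 2 ≤ N.card → K ⊆ F → (∀ A ∈ K, A ⊆ N ∧ A.card = k) →
      (∀ y ∈ N, ∀ z ∈ N, y ≠ z → (K.filter (fun A => y ∈ A ∧ z ∈ A)).card = 1) →
      N.card < 2 ^ (k - 1)) ∧
    -- (5) optimality of (2) inside `N ∪ {x}`
    (∀ (N : Finset ℕ) (x : ℕ), x ∉ N →
      (∀ k : ℕ, 3 ≤ k → ∃ F : Finset (Finset ℕ), UnionClosed F ∧ F.card ≤ 2 * freq F x ∧
        (∀ y ∈ N, 2 * freq F y < F.card) ∧
        N.card.choose (k - 2) ≤ 2 * kSets F N k + 3 * N.card ^ (k - 3)) ∧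
      (4 ≤ N.card → ∃ F : Finset (Finset ℕ), UnionClosed F ∧ F.card ≤ 2 * freq F x ∧
        (∀ y ∈ N, 2 * freq F y < F.card) ∧ N.card / 2 ≤ kSets F N 3)) := by
  have hrare : ∀ {F : Finset (Finset ℕ)} {x : ℕ} {N : Finset ℕ}, UniqueHalf F x → x ∉ N →
      ∀ y ∈ N, 2 * freq F y < F.card := fun h hx y hy => h.2.2.2 y (fun e => hx (e ▸ hy))
  refine ⟨?_, ?_, fun F x h N K l hx hN hKF hadm => weights h.2.1 (hrare h hx) hN hKF hadm, ?_, ?_⟩
  · intro F x h A hA hxA hne
    by_contra hcon
    push Not at hcon
    have hpos := hne.card_pos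
    rcases (by omega : A.card = 1 ∨ A.card = 2) with h1 | h1
    · obtain ⟨y, rfl⟩ := card_eq_one.1 h1
      have h2 := of_single h.2.1 hA
      have h3 := hrare h hxA y (mem_singleton_self y)
      omega
    · have h2 := weights (K := {A}) (l := fun _ => 1) h.2.1 (hrare h hxA) hne
        (singleton_subset_iff.2 hA) ⟨fun B hB => by
          rw [mem_singleton] at hB; subst hB
          exact ⟨Subset.refl _, by omega, zero_le_one⟩, fun y _ z _ _ => by
          rw [sum_const, nsmul_eq_mul, mul_one]
          exact_mod_cast (card_filter_le _ _).trans (by simp)⟩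
      unfold total at h2
      rw [sum_singleton, h1] at h2
      norm_num at h2
  · have hex : ∀ k : ℕ, ∃ C : ℕ, (k = 3 → C = 0) ∧ (3 ≤ k → ∀ (F : Finset (Finset ℕ))
        (N : Finset ℕ), UnionClosed F → (∀ y ∈ N, 2 * freq F y < F.card) →
        2 * kSets F N k ≤ N.card.choose (k - 2) + C * N.card ^ (k - 3)) := by
      intro k
      by_cases hk : 3 ≤ k
      · obtain ⟨C, h1, h2⟩ := upperk k hk
        exact ⟨C, h1, fun _ => h2⟩
      · exact ⟨0, fun _ => rfl, fun h => absurd h hk⟩
    choose C hC using hex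
    refine ⟨C, (hC 3).1 rfl, fun F x h k hk N hx => (hC k).2 hk F N h.2.1 (hrare h hx)⟩
  · intro F x h N K k hx hk hN hKF hK hcod
    by_contra hcon
    push Not at hcon
    obtain ⟨hlin, hom⟩ := Pool.Agent.H61.LF.steiner hk hN hK hcod
    have hp := Pool.Agent.H61.LF.pow_pos' hk
    have hN' : N.Nonempty := by rw [← card_pos]; omega
    obtain ⟨y, hy, hab⟩ := Pool.Agent.H61.LF.linear_fc h.2.1 hKF hN' (fun A hA => (hK A hA).1) hlin
      (fun A hA => by rw [(hK A hA).2]; exact hk) (by
        rw [sum_congr rfl hom, sum_const, nsmul_eq_mul]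
        have h3 : (2 : ℝ) ^ (k - 1) ≤ N.card := by exact_mod_cast hcon
        have h4 : 1 ≤ ((N.card : ℝ) - 1) / (2 ^ (k - 1) - 1) := by
          rw [le_div_iff₀ hp]; linarith
        have h5 : (0 : ℝ) ≤ N.card := Nat.cast_nonneg _
        nlinarith)
    have := hrare h hx y hy
    unfold freq at this
    omega
  · intro N x hx
    constructor
    · intro k hk
      obtain ⟨G, h1, h2, h3⟩ := low4 hk N
      obtain ⟨F, f1, f2, f3, f4⟩ := local_family hx h1 h2
      exact ⟨F, f1, f2, f3, by omega⟩
    · intro hN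
      obtain ⟨G, h1, h2, h3⟩ := low3 N hN
      obtain ⟨F, f1, f2, f3, f4⟩ := local_family hx h1 h2
      exact ⟨F, f1, f2, f3, h3.trans f4⟩

end Pool.Agent.Results.MP_ff7426_co.SparseExceptions
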